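import Pool.Agent.H15.G.R_seed8.TH176.Nag.Flat

set_option autoImplicit false

/-!
# Multiplicities under analytic substitutions

`R = HahnSeries ℤ (Lau F)`, series in one variable `t` with Laurent polynomials in two variables as
coefficients.  If a form of degree `d` over `LaurentSeries F` has multiplicity `w` at the point
`X (x, y)`, then every `t`-coefficient of `f (X)` has multiplicity `w` at `(x, y)`.
-/

namespace Pool.Agent.TH1.NG

open Finset Pool.Agent.TH176.Nag

section mapR

variable {A B : Type*} [CommRing A] [CommRing B]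

/-- coefficientwise application of a ring homomorphism -/
noncomputable def mapR (f : A →+* B) : HahnSeries ℤ A →+* HahnSeries ℤ B where
  toFun x := x.map f
  map_one' := HahnSeries.map_one f.toMonoidWithZeroHom
  map_mul' x y := HahnSeries.map_mul f.toNonUnitalRingHom
  map_zero' := by ext n; simp
  map_add' x y := by ext n; simp

theorem mapR_coeff (f : A →+* B) (x : HahnSeries ℤ A) (n : ℤ) :
    (mapR f x).coeff n = f (x.coeff n) := rfl

/-- coefficientwise application of an additive map -/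
noncomputable def mapA (f : A →+ B) (x : HahnSeries ℤ A) : HahnSeries ℤ B := x.map f

theorem mapA_coeff (f : A →+ B) (x : HahnSeries ℤ A) (n : ℤ) :
    (mapA f x).coeff n = f (x.coeff n) := rfl

theorem mapA_add (f : A →+ B) (x y : HahnSeries ℤ A) : mapA f (x + y) = mapA f x + mapA f y := by
  ext n
  simp [mapA_coeff]

theorem mapA_zero (f : A →+ B) : mapA f (0 : HahnSeries ℤ A) = 0 := by
  ext n
  simp [mapA_coeff]

/-- the Leibniz rule passes to Hahn series -/
theorem mapA_mul (δ : A →+ A) (hδ : ∀ a b, δ (a * b) = δ a * b + a * δ b) (x y : HahnSeries ℤ A) :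
    mapA δ (x * y) = mapA δ x * y + x * mapA δ y := by
  ext n
  have hx : (mapA δ x).support ⊆ x.support := by
    intro k hk h0
    exact hk (by rw [mapA_coeff, h0, map_zero])
  have hy : (mapA δ y).support ⊆ y.support := by
    intro k hk h0
    exact hk (by rw [mapA_coeff, h0, map_zero])
  rw [HahnSeries.coeff_add, mapA_coeff, HahnSeries.coeff_mul,
    HahnSeries.coeff_mul_left' x.isPWO_support hx, HahnSeries.coeff_mul_right' y.isPWO_support hy,
    map_sum, ← Finset.sum_add_distrib]
  refine Finset.sum_congr rfl fun ij _ => ?_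
  rw [hδ, mapA_coeff, mapA_coeff]

end mapR

/-- a derivation maps `I ^ (k + 1)` to `I ^ k` -/
theorem deriv_pow {R : Type*} [CommRing R] (D : R → R) (hadd : ∀ a b, D (a + b) = D a + D b)
    (hmul : ∀ a b, D (a * b) = D a * b + a * D b) (I : Ideal R) :
    ∀ (k : ℕ) (x : R), x ∈ I ^ (k + 1) → D x ∈ I ^ k := by
  intro k
  induction k with
  | zero => intro x _; simp
  | succ k ih =>
    intro x hx
    rw [pow_succ] at hx
    refine Submodule.mul_induction_on hx ?_ ?_
    · intro a ha b hb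
      rw [hmul]
      refine Ideal.add_mem _ ?_ ?_
      · rw [pow_succ]
        exact Ideal.mul_mem_mul (ih a ha) hb
      · exact Ideal.mul_mem_right _ _ ha
    · intro a b ha hb
      rw [hadd]
      exact Ideal.add_mem _ ha hb

section lau

variable {F : Type} [Field F]

/-- the character of a torus point -/
noncomputable def chr' (x y : F) (hx : x ≠ 0) (hy : y ≠ 0) : Multiplicative (ℤ × ℤ) →* F where
  toFun m := x ^ (Multiplicative.toAdd m).1 * y ^ (Multiplicative.toAdd m).2
  map_one' := by simp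
  map_mul' m m' := by
    simp only [toAdd_mul, Prod.fst_add, Prod.snd_add]
    rw [zpow_add₀ hx, zpow_add₀ hy]; ring

/-- evaluation of Laurent polynomials at a torus point -/
noncomputable def ev (x y : F) (hx : x ≠ 0) (hy : y ≠ 0) : Lau F →+* F :=
  (AddMonoidAlgebra.lift F F (ℤ × ℤ) (chr' x y hx hy)).toRingHom

theorem ev_apply (x y : F) (hx : x ≠ 0) (hy : y ≠ 0) (f : Lau F) :
    ev x y hx hy f = f.coeff.sum fun m c => c * (x ^ m.1 * y ^ m.2) := by
  show AddMonoidAlgebra.lift F F (ℤ × ℤ) (chr' x y hx hy) f = _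
  rw [AddMonoidAlgebra.lift_apply]
  rfl

theorem ev_single (x y : F) (hx : x ≠ 0) (hy : y ≠ 0) (m : ℤ × ℤ) (c : F) :
    ev x y hx hy (AddMonoidAlgebra.single m c) = c * (x ^ m.1 * y ^ m.2) := by
  show AddMonoidAlgebra.lift F F (ℤ × ℤ) (chr' x y hx hy) (AddMonoidAlgebra.single m c) = _
  rw [AddMonoidAlgebra.lift_single]
  rfl

/-- the operator multiplying the coefficient at `m` by `l m` -/
noncomputable def dl (l : ℤ × ℤ → F) : Lau F →+ Lau F where
  toFun f := f.coeff.sum fun m c => AddMonoidAlgebra.single m (l m * c)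
  map_zero' := by simp
  map_add' f g := by
    rw [AddMonoidAlgebra.coeff_add]
    refine Finsupp.sum_add_index' (by simp) ?_
    intro m a b
    rw [mul_add, AddMonoidAlgebra.single_add]

theorem dl_single (l : ℤ × ℤ → F) (m : ℤ × ℤ) (c : F) :
    dl l (AddMonoidAlgebra.single m c) = AddMonoidAlgebra.single m (l m * c) := by
  show (AddMonoidAlgebra.single m c : Lau F).coeff.sum
    (fun m c => (AddMonoidAlgebra.single m (l m * c) : Lau F)) = _
  rw [AddMonoidAlgebra.coeff_single, Finsupp.sum_single_index (by simp)]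

theorem dl_mul (l : ℤ × ℤ → F) (hl : ∀ m m', l (m + m') = l m + l m') (f g : Lau F) :
    dl l (f * g) = dl l f * g + f * dl l g := by
  induction f using AddMonoidAlgebra.induction_linear with
  | zero => simp
  | add f f' hf hf' => rw [add_mul, map_add, hf, hf', map_add]; ring
  | single m c =>
    induction g using AddMonoidAlgebra.induction_linear with
    | zero => simp
    | add g g' hg hg' => rw [mul_add, map_add, hg, hg', map_add]; ring
    | single m' c' =>
      rw [AddMonoidAlgebra.single_mul_single, dl_single, dl_single, dl_single,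
        AddMonoidAlgebra.single_mul_single, AddMonoidAlgebra.single_mul_single,
        ← AddMonoidAlgebra.single_add, hl]
      congr 1
      ring

theorem ev_dl (x y : F) (hx : x ≠ 0) (hy : y ≠ 0) (l : ℤ × ℤ → F) (f : Lau F) :
    ev x y hx hy (dl l f) = f.coeff.sum fun m c => l m * c * (x ^ m.1 * y ^ m.2) := by
  induction f using AddMonoidAlgebra.induction_linear with
  | zero => simp
  | add f f' hf hf' =>
    rw [map_add, map_add, hf, hf', AddMonoidAlgebra.coeff_add, Finsupp.sum_add_index' (by simp)]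
    intro m a b
    ring
  | single m c =>
    rw [dl_single, ev_single, AddMonoidAlgebra.coeff_single, Finsupp.sum_single_index (by simp)]

theorem dl_dl (l l' : ℤ × ℤ → F) (f : Lau F) : dl l (dl l' f) = dl (fun m => l m * l' m) f := by
  induction f using AddMonoidAlgebra.induction_linear with
  | zero => simp
  | add f f' hf hf' => rw [map_add, map_add, hf, hf', map_add]
  | single m c => rw [dl_single, dl_single, dl_single, mul_assoc]

theorem dl_one (f : Lau F) : dl (fun _ => (1 : F)) f = f := by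
  induction f using AddMonoidAlgebra.induction_linear with
  | zero => simp
  | add f f' hf hf' => rw [map_add, hf, hf']
  | single m c => rw [dl_single, one_mul]

theorem dl_iter (l : ℤ × ℤ → F) (a : ℕ) (f : Lau F) :
    (dl l)^[a] f = dl (fun m => l m ^ a) f := by
  induction a with
  | zero => simp [dl_one]
  | succ a ih =>
    rw [Function.iterate_succ_apply', ih, dl_dl]
    congr 2
    funext m
    ring

end lau

section R

variable (F : Type) [Field F]

/-- scalars as constant Laurent polynomials, coefficientwise -/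
noncomputable def emb : LaurentSeries F →+* HahnSeries ℤ (Lau F) :=
  mapR (AddMonoidAlgebra.singleZeroRingHom)

variable {F}

theorem emb_coeff (c : LaurentSeries F) (n : ℤ) :
    (emb F c).coeff n = AddMonoidAlgebra.single 0 (c.coeff n) := rfl

/-- coefficientwise evaluation at a torus point -/
noncomputable def evR (x y : F) (hx : x ≠ 0) (hy : y ≠ 0) :
    HahnSeries ℤ (Lau F) →+* LaurentSeries F :=
  mapR (ev x y hx hy)

theorem evR_coeff (x y : F) (hx : x ≠ 0) (hy : y ≠ 0) (u : HahnSeries ℤ (Lau F)) (n : ℤ) :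
    (evR x y hx hy u).coeff n = ev x y hx hy (u.coeff n) := rfl

theorem evR_emb (x y : F) (hx : x ≠ 0) (hy : y ≠ 0) (c : LaurentSeries F) :
    evR x y hx hy (emb F c) = c := by
  ext n
  rw [evR_coeff, emb_coeff, ev_single]
  simp

/-- coefficientwise `dl` -/
noncomputable def DL (l : ℤ × ℤ → F) (u : HahnSeries ℤ (Lau F)) : HahnSeries ℤ (Lau F) :=
  mapA (dl l) u

theorem DL_coeff (l : ℤ × ℤ → F) (u : HahnSeries ℤ (Lau F)) (n : ℤ) :
    (DL l u).coeff n = dl l (u.coeff n) := rfl

theorem DL_iter_coeff (l : ℤ × ℤ → F) (a : ℕ) (u : HahnSeries ℤ (Lau F)) (n : ℤ) :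
    ((DL l)^[a] u).coeff n = (dl l)^[a] (u.coeff n) := by
  induction a with
  | zero => rfl
  | succ a ih =>
    rw [Function.iterate_succ_apply', Function.iterate_succ_apply', DL_coeff, ih]

theorem DL_pow_mem (l : ℤ × ℤ → F) (hl : ∀ m m', l (m + m') = l m + l m')
    (I : Ideal (HahnSeries ℤ (Lau F))) (a k : ℕ) (u : HahnSeries ℤ (Lau F)) (hu : u ∈ I ^ (k + a)) :
    (DL l)^[a] u ∈ I ^ k := by
  induction a generalizing u with
  | zero => simpa using hu
  | succ a ih =>
    rw [Function.iterate_succ_apply]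
    apply ih
    exact deriv_pow (DL l) (mapA_add _) (mapA_mul _ (dl_mul l hl)) I (k + a) u hu

/-- elements of the `w`-th power of the kernel of the evaluation have multiplicity at least `w`,
coefficient by coefficient -/
theorem LM_of_mem_pow {x y : F} (hx : x ≠ 0) (hy : y ≠ 0) {w : ℕ} {u : HahnSeries ℤ (Lau F)}
    (hu : u ∈ RingHom.ker (evR x y hx hy) ^ w) (n : ℤ) : LM (u.coeff n).coeff x y w := by
  apply LM_of_mono
  intro a b hab
  obtain ⟨c, rfl⟩ : ∃ c, w = c + 1 + b + a := ⟨w - 1 - b - a, by omega⟩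
  have h1 := DL_pow_mem (fun m : ℤ × ℤ => (m.1 : F)) (fun m m' => by simp) _ a (c + 1 + b) u hu
  have h2 := DL_pow_mem (fun m : ℤ × ℤ => (m.2 : F)) (fun m m' => by simp) _ b (c + 1) _ h1
  have h3 := Ideal.pow_le_self (Nat.succ_ne_zero c) h2
  rw [RingHom.mem_ker] at h3
  have h4 := congrArg (fun v : LaurentSeries F => v.coeff n) h3
  simp only [HahnSeries.coeff_zero] at h4
  rw [evR_coeff, DL_iter_coeff, DL_iter_coeff, dl_iter, dl_iter, dl_dl, ev_dl] at h4
  unfold pr
  rw [← h4]
  refine Finsupp.sum_congr fun m _ => ?_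
  ring

/-- the value of the form with coefficients `f` of degree `d` at `X` -/
noncomputable def fX (d : ℕ) (f : (ℤ × ℤ) →₀ LaurentSeries F) (X : Fin 3 → HahnSeries ℤ (Lau F)) :
    HahnSeries ℤ (Lau F) :=
  f.sum fun m c => emb F c * (X 0 ^ m.1.toNat * X 1 ^ m.2.toNat * X 2 ^ ((d : ℤ) - m.1 - m.2).toNat)

theorem add_pow_ext {R : Type*} [CommRing R] (U W : R) {p d : ℕ} (h : p ≤ d) :
    (U + W) ^ p = ∑ a ∈ range (d + 1), U ^ a * W ^ (p - a) * (p.choose a : R) := by
  rw [add_pow]
  refine Finset.sum_subset (fun a ha => ?_) (fun a _ ha => ?_)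
  · rw [Finset.mem_range] at ha ⊢; omega
  · rw [Finset.mem_range] at ha
    rw [Nat.choose_eq_zero_of_lt (by omega), Nat.cast_zero, mul_zero]

/-- Taylor coefficients vanish -/
theorem taylor_zero {K : Type*} [Field K] [CharZero K] {f : (ℤ × ℤ) →₀ K} {u v : K} (hu : u ≠ 0)
    (hv : v ≠ 0) {w : ℕ} (h : LM f u v w) (hf : ∀ m ∈ f.support, 0 ≤ m.1 ∧ 0 ≤ m.2) {a b : ℕ}
    (hab : a + b < w) :
    (f.sum fun m c => c * ((m.1.toNat.choose a : K) * (m.2.toNat.choose b : K) *
      (u ^ (m.1.toNat - a) * v ^ (m.2.toNat - b)))) = 0 := by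
  have h1 := h _ (PF_desc2 (K := K) hab)
  have ha : ((a.factorial : ℕ) : K) ≠ 0 := by exact_mod_cast a.factorial_ne_zero
  have hb : ((b.factorial : ℕ) : K) ≠ 0 := by exact_mod_cast b.factorial_ne_zero
  have h2 : pr f u v (fun u : K × K => (∏ t ∈ range a, (u.1 - (t : K))) *
      ∏ t ∈ range b, (u.2 - (t : K))) = ((a.factorial : K) * (b.factorial : K) * (u ^ a * v ^ b)) *
      (f.sum fun m c => c * ((m.1.toNat.choose a : K) * (m.2.toNat.choose b : K) *
      (u ^ (m.1.toNat - a) * v ^ (m.2.toNat - b)))) := by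
    unfold pr Finsupp.sum
    rw [Finset.mul_sum]
    refine Finset.sum_congr rfl fun m hm => ?_
    obtain ⟨h3, h4⟩ := hf m hm
    obtain ⟨p, hp⟩ := Int.eq_ofNat_of_zero_le h3
    obtain ⟨q, hq⟩ := Int.eq_ofNat_of_zero_le h4
    beta_reduce
    rw [hp, hq]
    simp only [Int.cast_natCast, zpow_natCast, Int.toNat_natCast]
    rw [prod_desc_nat, prod_desc_nat]
    rcases Nat.lt_or_ge p a with h5 | h5
    · rw [Nat.choose_eq_zero_of_lt h5]; simp
    rcases Nat.lt_or_ge q b with h6 | h6
    · rw [Nat.choose_eq_zero_of_lt h6]; simp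
    have e1 : u ^ p = u ^ a * u ^ (p - a) := by rw [← pow_add]; congr 1; omega
    have e2 : v ^ q = v ^ b * v ^ (q - b) := by rw [← pow_add]; congr 1; omega
    rw [e1, e2]
    ring
  rw [h2] at h1
  exact (mul_eq_zero.1 h1).resolve_left (mul_ne_zero (mul_ne_zero ha hb)
    (mul_ne_zero (pow_ne_zero _ hu) (pow_ne_zero _ hv)))

/-- the value of a form with multiplicity `w` at the point is in the `w`-th power of the kernel -/
theorem fX_mem [CharZero F] {x y : F} (hx : x ≠ 0) (hy : y ≠ 0) {d w : ℕ}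
    {f : (ℤ × ℤ) →₀ LaurentSeries F}
    (hf : ∀ m ∈ f.support, 0 ≤ m.1 ∧ 0 ≤ m.2 ∧ m.1 + m.2 ≤ d)
    {X : Fin 3 → HahnSeries ℤ (Lau F)} (hX : ∀ j, evR x y hx hy (X j) ≠ 0)
    (h : LM f (evR x y hx hy (X 0) / evR x y hx hy (X 2))
      (evR x y hx hy (X 1) / evR x y hx hy (X 2)) w) :
    fX d f X ∈ RingHom.ker (evR x y hx hy) ^ w := by
  obtain ⟨u, hu⟩ : ∃ u, u = evR x y hx hy (X 0) / evR x y hx hy (X 2) := ⟨_, rfl⟩
  obtain ⟨v, hv⟩ : ∃ v, v = evR x y hx hy (X 1) / evR x y hx hy (X 2) := ⟨_, rfl⟩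
  rw [← hu, ← hv] at h
  have hu0 : u ≠ 0 := by rw [hu]; exact div_ne_zero (hX 0) (hX 2)
  have hv0 : v ≠ 0 := by rw [hv]; exact div_ne_zero (hX 1) (hX 2)
  obtain ⟨U, hU⟩ : ∃ U, U = X 0 - emb F u * X 2 := ⟨_, rfl⟩
  obtain ⟨V, hV⟩ : ∃ V, V = X 1 - emb F v * X 2 := ⟨_, rfl⟩
  have hUN : U ∈ RingHom.ker (evR x y hx hy) := by
    rw [RingHom.mem_ker, hU, map_sub, map_mul, evR_emb, hu, div_mul_cancel₀ _ (hX 2), sub_self]
  have hVN : V ∈ RingHom.ker (evR x y hx hy) := by
    rw [RingHom.mem_ker, hV, map_sub, map_mul, evR_emb, hv, div_mul_cancel₀ _ (hX 2), sub_self]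
  have hX0 : X 0 = U + emb F u * X 2 := by rw [hU]; ring
  have hX1 : X 1 = V + emb F v * X 2 := by rw [hV]; ring
  have key : fX d f X = ∑ a ∈ range (d + 1), ∑ b ∈ range (d + 1),
      emb F (f.sum fun m c => c * ((m.1.toNat.choose a : LaurentSeries F) *
        (m.2.toNat.choose b : LaurentSeries F) *
        (u ^ (m.1.toNat - a) * v ^ (m.2.toNat - b)))) * (U ^ a * V ^ b * X 2 ^ (d - a - b)) := by
    unfold fX Finsupp.sum
    simp_rw [map_sum, Finset.sum_mul]
    simp_rw [Finset.sum_comm (s := range (d + 1)) (t := f.support)]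
    refine Finset.sum_congr rfl fun m hm => ?_
    obtain ⟨h3, h4, h5⟩ := hf m hm
    obtain ⟨p, hp⟩ := Int.eq_ofNat_of_zero_le h3
    obtain ⟨q, hq⟩ := Int.eq_ofNat_of_zero_le h4
    have h6 : ((d : ℤ) - m.1 - m.2).toNat = d - p - q := by omega
    have hpq : p + q ≤ d := by omega
    rw [h6, hp, hq, Int.toNat_natCast, Int.toNat_natCast, hX0, hX1,
      add_pow_ext U _ (show p ≤ d by omega), add_pow_ext V _ (show q ≤ d by omega),
      Finset.sum_mul_sum, Finset.sum_mul, Finset.mul_sum]
    refine Finset.sum_congr rfl fun a _ => ?_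
    rw [Finset.sum_mul, Finset.mul_sum]
    refine Finset.sum_congr rfl fun b _ => ?_
    rcases Nat.lt_or_ge p a with h7 | h7
    · rw [Nat.choose_eq_zero_of_lt h7]; simp
    rcases Nat.lt_or_ge q b with h8 | h8
    · rw [Nat.choose_eq_zero_of_lt h8]; simp
    have e : X 2 ^ (d - a - b) = X 2 ^ (p - a) * X 2 ^ (q - b) * X 2 ^ (d - p - q) := by
      rw [← pow_add, ← pow_add]; congr 1; omega
    rw [e, mul_pow, mul_pow]
    simp only [map_mul, map_pow, map_natCast]
    ring
  rw [key]
  refine Ideal.sum_mem _ fun a _ => Ideal.sum_mem _ fun b _ => ?_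
  rcases Nat.lt_or_ge (a + b) w with hab | hab
  · rw [taylor_zero hu0 hv0 h (fun m hm => ⟨(hf m hm).1, (hf m hm).2.1⟩) hab, map_zero, zero_mul]
    exact Ideal.zero_mem _
  · refine Ideal.mul_mem_left _ _ (Ideal.mul_mem_right _ _ ?_)
    have h9 : U ^ a * V ^ b ∈ RingHom.ker (evR x y hx hy) ^ (a + b) := by
      have e := pow_add (RingHom.ker (evR x y hx hy)) a b
      rw [e]
      exact Ideal.mul_mem_mul (Ideal.pow_mem_pow hUN a) (Ideal.pow_mem_pow hVN b)
    exact Ideal.pow_le_pow_right hab h9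

/-- **Multiplicities**: every `t`-coefficient of the value of the form has multiplicity `w`. -/
theorem LM_fX [CharZero F] {x y : F} (hx : x ≠ 0) (hy : y ≠ 0) {d w : ℕ}
    {f : (ℤ × ℤ) →₀ LaurentSeries F}
    (hf : ∀ m ∈ f.support, 0 ≤ m.1 ∧ 0 ≤ m.2 ∧ m.1 + m.2 ≤ d)
    {X : Fin 3 → HahnSeries ℤ (Lau F)} (hX : ∀ j, evR x y hx hy (X j) ≠ 0)
    (h : LM f (evR x y hx hy (X 0) / evR x y hx hy (X 2))
      (evR x y hx hy (X 1) / evR x y hx hy (X 2)) w) (k : ℤ) :
    LM ((fX d f X).coeff k).coeff x y w :=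
  LM_of_mem_pow hx hy (fX_mem hx hy hf hX h) k

end R

end Pool.Agent.TH1.NG
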